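import Mathlib

/-!
# SU33/Num: numerical estimates (MP_7a6c33_nt)
-/

set_option autoImplicit false

namespace Pool.Agent.SU33

open Filter Topology Finset

/-- `Z n = ⌊(log n) / 2⌋` -/
noncomputable def ZZ (n : ℕ) : ℕ := ⌊Real.log n / 2⌋₊

/-- number of blocks -/
noncomputable def II (n : ℕ) : ℕ := (n - 15) / (24 * primorial (ZZ n))

lemma primorial_ZZ_le {n : ℕ} (hn : 1 ≤ n) : (primorial (ZZ n) : ℝ) ≤ (n : ℝ) ^ (7 / 10 : ℝ) := by
  have hn0 : (0 : ℝ) < n := by exact_mod_cast hn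
  have hl : 0 ≤ Real.log n := Real.log_natCast_nonneg n
  have h1 : (primorial (ZZ n) : ℝ) ≤ (4 : ℝ) ^ (ZZ n) := by
    exact_mod_cast primorial_le_four_pow (ZZ n)
  refine h1.trans ?_
  rw [← Real.rpow_natCast, Real.rpow_def_of_pos (by norm_num), Real.rpow_def_of_pos hn0]
  apply Real.exp_le_exp.2
  have h2 : ((ZZ n : ℕ) : ℝ) ≤ Real.log n / 2 := Nat.floor_le (by positivity)
  have h3 : Real.log 4 = 2 * Real.log 2 := by
    rw [show (4 : ℝ) = 2 ^ 2 by norm_num, Real.log_pow]; norm_num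
  have h4 := Real.log_two_lt_d9
  have h5 := Real.log_two_gt_d9
  rw [h3]
  calc 2 * Real.log 2 * (ZZ n : ℝ) ≤ 2 * Real.log 2 * (Real.log n / 2) :=
        mul_le_mul_of_nonneg_left h2 (by linarith)
    _ ≤ Real.log n * (7 / 10) := by nlinarith

/-- the failure probabilities are small -/
lemma tail_le : ∀ᶠ n : ℕ in atTop,
    (1 - (1 / (2 * Real.log n)) ^ 5) ^ (II n) ≤ 1 / (n : ℝ) ^ 2 ∧ 24 * primorial (ZZ n) ≤ n - 15 ∧
      1 ≤ Real.log n ∧ 1000 ≤ n := by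
  have h1 : ∀ᶠ x : ℝ in atTop, Real.log x ^ (6 : ℝ) ≤ x ^ (1 / 5 : ℝ) / 3200 := by
    have h := isLittleO_log_rpow_rpow_atTop (s := (1 / 5 : ℝ)) 6 (by norm_num)
    have h2 := h.bound (c := 1 / 3200) (by norm_num)
    filter_upwards [h2, eventually_ge_atTop (1 : ℝ)] with x hx hx1
    rw [Real.norm_of_nonneg (Real.rpow_nonneg (Real.log_nonneg hx1) _),
      Real.norm_of_nonneg (by positivity)] at hx
    linarith
  have h1' := tendsto_natCast_atTop_atTop (R := ℝ) |>.eventually h1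
  have h2 : ∀ᶠ x : ℝ in atTop, (1 : ℝ) ≤ x ^ (1 / 10 : ℝ) / 100 := by
    have := tendsto_rpow_atTop (y := (1 / 10 : ℝ)) (by norm_num)
    filter_upwards [this.eventually_ge_atTop 100] with x hx
    linarith
  have h2' := tendsto_natCast_atTop_atTop (R := ℝ) |>.eventually h2
  filter_upwards [h1', h2', eventually_ge_atTop 1000] with n hA hB hn
  have hn0 : (0 : ℝ) < n := by exact_mod_cast (by omega : 0 < n)
  have hn1 : (1000 : ℝ) ≤ n := by exact_mod_cast hn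
  have hlog : 1 ≤ Real.log n := by
    rw [Real.le_log_iff_exp_le hn0]
    have := Real.exp_one_lt_d9
    linarith
  have hP := primorial_ZZ_le (n := n) (by omega)
  obtain ⟨P, hPdef⟩ : ∃ P : ℝ, P = (primorial (ZZ n) : ℝ) := ⟨_, rfl⟩
  rw [← hPdef] at hP
  have hP1 : (1 : ℝ) ≤ P := by
    rw [hPdef]; exact_mod_cast (primorial_pos (ZZ n))
  -- powers
  have e1 : (n : ℝ) ^ (7 / 10 : ℝ) * (n : ℝ) ^ (1 / 10 : ℝ) * (n : ℝ) ^ (1 / 5 : ℝ) = n := by
    rw [← Real.rpow_add hn0, ← Real.rpow_add hn0]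
    norm_num
  have ha0 : 0 < (n : ℝ) ^ (7 / 10 : ℝ) := by positivity
  have hc0 : 0 < (n : ℝ) ^ (1 / 5 : ℝ) := by positivity
  obtain ⟨a, ha⟩ : ∃ a : ℝ, a = (n : ℝ) ^ (7 / 10 : ℝ) := ⟨_, rfl⟩
  obtain ⟨b, hb⟩ : ∃ b : ℝ, b = (n : ℝ) ^ (1 / 10 : ℝ) := ⟨_, rfl⟩
  obtain ⟨c, hc⟩ : ∃ c : ℝ, c = (n : ℝ) ^ (1 / 5 : ℝ) := ⟨_, rfl⟩
  rw [← ha] at ha0 e1 hP
  rw [← hb] at e1 hB
  rw [← hc] at hc0 e1 hA
  have hb0 : 100 ≤ b := by linarith
  have hL6 : Real.log n ^ 6 ≤ c / 3200 := by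
    have : Real.log n ^ (6 : ℝ) = Real.log n ^ 6 := by
      rw [show (6 : ℝ) = ((6 : ℕ) : ℝ) by norm_num, Real.rpow_natCast]
    rw [← this]; exact hA
  have hc1 : 3200 ≤ c := by
    have h0 : (1 : ℝ) ≤ Real.log n ^ 6 := one_le_pow₀ hlog
    have h00 := h0.trans hL6
    rw [le_div_iff₀ (by norm_num), one_mul] at h00
    exact h00
  clear h1 h1' h2 h2' ha hb hc
  -- n ≥ 100 a c
  have hn_big : 100 * (a * c) ≤ n := by
    calc 100 * (a * c) ≤ b * (a * c) := mul_le_mul_of_nonneg_right hb0 (by positivity)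
      _ = a * b * c := by ring
      _ = n := e1
  have hPa : 24 * P ≤ (n : ℝ) - 15 := by
    have : 24 * P ≤ 24 * a := by linarith
    nlinarith
  have hnat : 24 * primorial (ZZ n) ≤ n - 15 := by
    have h15 : ((n - 15 : ℕ) : ℝ) = (n : ℝ) - 15 := by
      rw [Nat.cast_sub (by omega)]; norm_num
    have : ((24 * primorial (ZZ n) : ℕ) : ℝ) ≤ ((n - 15 : ℕ) : ℝ) := by
      rw [h15]; push_cast; rw [← hPdef]; exact hPa
    exact_mod_cast this
  refine ⟨?_, hnat, hlog, hn⟩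
  -- number of blocks
  have hI : c ≤ (II n : ℝ) := by
    have h3 : ((n - 15 : ℕ) : ℝ) / ((24 * primorial (ZZ n) : ℕ) : ℝ) - 1 ≤ (II n : ℝ) := by
      unfold II
      have hpos : 0 < 24 * primorial (ZZ n) := by
        have := primorial_pos (ZZ n); omega
      have h4 : n - 15 < ((n - 15) / (24 * primorial (ZZ n)) + 1) * (24 * primorial (ZZ n)) := by
        rw [mul_comm]; exact Nat.lt_mul_div_succ _ hpos
      have h5 : ((n - 15 : ℕ) : ℝ) <
          (((n - 15) / (24 * primorial (ZZ n)) : ℕ) + 1 : ℝ) * ((24 * primorial (ZZ n) : ℕ) : ℝ) := by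
        exact_mod_cast h4
      have h6 : (0 : ℝ) < ((24 * primorial (ZZ n) : ℕ) : ℝ) := by exact_mod_cast hpos
      have h7 := (div_lt_iff₀ h6).2 h5
      linarith
    have h15 : ((n - 15 : ℕ) : ℝ) = (n : ℝ) - 15 := by
      rw [Nat.cast_sub (by omega)]; norm_num
    have h24 : ((24 * primorial (ZZ n) : ℕ) : ℝ) = 24 * P := by push_cast; rw [hPdef]
    rw [h15, h24] at h3
    have h8 : c + 1 ≤ ((n : ℝ) - 15) / (24 * P) := by
      rw [le_div_iff₀ (by positivity)]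
      have h9 : (c + 1) * (24 * P) ≤ (c + 1) * (24 * a) :=
        mul_le_mul_of_nonneg_left (by linarith) (by linarith)
      have h10 : 1 ≤ a := by linarith
      nlinarith
    linarith
  obtain ⟨L, hL⟩ : ∃ L : ℝ, L = Real.log n := ⟨_, rfl⟩
  rw [← hL] at hlog hL6 ⊢
  have hq : 0 ≤ (1 / (2 * L)) ^ 5 := by positivity
  have hq1 : (1 / (2 * L)) ^ 5 ≤ 1 := by
    apply pow_le_one₀ (by positivity)
    rw [div_le_one (by linarith)]
    linarith
  have h3 : 1 - (1 / (2 * L)) ^ 5 ≤ Real.exp (-((1 / (2 * L)) ^ 5)) := by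
    have := Real.add_one_le_exp (-((1 / (2 * L)) ^ 5))
    linarith
  calc (1 - (1 / (2 * L)) ^ 5) ^ (II n)
      ≤ (Real.exp (-((1 / (2 * L)) ^ 5))) ^ (II n) := pow_le_pow_left₀ (by linarith) h3 _
    _ = Real.exp (-((1 / (2 * L)) ^ 5) * (II n)) := by
        rw [← Real.exp_nat_mul]; ring_nf
    _ ≤ Real.exp (-(2 * L)) := by
        apply Real.exp_le_exp.2
        have h4 : 2 * L ≤ (1 / (2 * L)) ^ 5 * c := by
          rw [div_pow, one_pow, div_mul_eq_mul_div, one_mul, le_div_iff₀ (by positivity)]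
          have : 2 * L * (2 * L) ^ 5 = 64 * L ^ 6 := by ring
          rw [this]
          linarith
        have h5 : (1 / (2 * L)) ^ 5 * c ≤ (1 / (2 * L)) ^ 5 * (II n) :=
          mul_le_mul_of_nonneg_left hI hq
        linarith
    _ = 1 / (n : ℝ) ^ 2 := by
        rw [Real.exp_neg, two_mul, Real.exp_add, hL, Real.exp_log hn0]
        field_simp

end Pool.Agent.SU33
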