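import Pool.Agent.SU33.Blocks
import Pool.Agent.SU33.Num
import Pool.Agent.GM53.BlkS18

/-!
# SU33/Main: the random model for MP_7a6c33_nt
-/

set_option autoImplicit false

namespace Pool.Agent.SU33

open MeasureTheory ProbabilityTheory Filter Topology Finset Pool.Agent.GM53

instance coin_prob (z : ℕ → ℕ) (m : ℕ) : IsProbabilityMeasure (coin z m) := by
  constructor
  unfold coin
  have h0 := prob_nonneg z m
  have h1 := prob_le_one z m
  simp only [Measure.coe_add, Measure.coe_smul, Pi.add_apply, Pi.smul_apply, measure_univ,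
    smul_eq_mul, mul_one]
  rw [← ENNReal.ofReal_add h0 (by linarith), add_sub_cancel, ENNReal.ofReal_one]

lemma coin_true (z : ℕ → ℕ) (m : ℕ) : coin z m {true} = ENNReal.ofReal (prob z m) := by
  unfold coin
  simp

/-- the random set of the model is given by independent events -/
theorem model_facts (z : ℕ → ℕ) :
    (∀ m : ℕ, MeasurableSet {ω : ℕ → Bool | ω m = true}) ∧
    iIndepSet (fun m : ℕ => {ω : ℕ → Bool | ω m = true}) (Measure.infinitePi (coin z)) ∧
    ∀ m : ℕ, (Measure.infinitePi (coin z)).real {ω : ℕ → Bool | ω m = true} = prob z m := by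
  have hm : ∀ m : ℕ, MeasurableSet {ω : ℕ → Bool | ω m = true} := fun m => by
    have h : Measurable (fun ω : ℕ → Bool => ω m) := measurable_pi_apply m
    exact h (measurableSet_singleton true)
  have key : ∀ s : Finset ℕ, Measure.infinitePi (coin z) (⋂ m ∈ s, {ω : ℕ → Bool | ω m = true})
      = ∏ m ∈ s, ENNReal.ofReal (prob z m) := by
    intro s
    have e : (⋂ m ∈ s, {ω : ℕ → Bool | ω m = true})
        = Set.pi (s : Set ℕ) (fun _ => ({true} : Set Bool)) := by
      ext ω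
      simp [Set.mem_pi]
    rw [e, Measure.infinitePi_pi _ (fun m _ => measurableSet_singleton true)]
    exact prod_congr rfl fun m _ => coin_true z m
  have key1 : ∀ m : ℕ, Measure.infinitePi (coin z) {ω : ℕ → Bool | ω m = true} =
      ENNReal.ofReal (prob z m) := by
    intro m
    have := key {m}
    simpa using this
  refine ⟨hm, ?_, ?_⟩
  · rw [iIndepSet_iff_meas_biInter hm]
    intro s
    rw [key s]
    exact prod_congr rfl fun m _ => (key1 m).symm
  · intro m
    rw [Measure.real, key1 m, ENNReal.toReal_ofReal (prob_nonneg z m)]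

/-- Borel-Cantelli. -/
lemma bc {Ω : Type*} [MeasurableSpace Ω] {μ : Measure Ω} [IsProbabilityMeasure μ]
    (F : ℕ → Set Ω) (h : ∀ᶠ n : ℕ in atTop, μ.real (F n) ≤ 1 / (n : ℝ) ^ 2) :
    ∀ᵐ ω ∂μ, ∀ᶠ n : ℕ in atTop, ω ∉ F n := by
  obtain ⟨n0, hn0⟩ := eventually_atTop.1 h
  set G : ℕ → Set Ω := fun n => if n0 ≤ n then F n else ∅ with hG
  have hle : ∀ n, μ (G n) ≤ ENNReal.ofReal (1 / (n : ℝ) ^ 2) := by
    intro n
    by_cases hn : n0 ≤ n
    · have e : G n = F n := by simp only [hG, if_pos hn]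
      rw [e]
      have h1 := hn0 n hn
      rw [← ENNReal.ofReal_toReal (measure_ne_top μ (F n))]
      exact ENNReal.ofReal_le_ofReal h1
    · have e : G n = ∅ := by simp only [hG, if_neg hn]
      rw [e]
      simp
  have hs : Summable (fun n : ℕ => 1 / (n : ℝ) ^ 2) := Real.summable_one_div_nat_pow.2 one_lt_two
  have hsum : ∑' n, μ (G n) ≠ ⊤ := by
    have h1 : ∑' n, μ (G n) ≤ ∑' n : ℕ, ENNReal.ofReal (1 / (n : ℝ) ^ 2) := ENNReal.tsum_le_tsum hle
    have h2 : ∑' n : ℕ, ENNReal.ofReal (1 / (n : ℝ) ^ 2) =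
        ENNReal.ofReal (∑' n : ℕ, 1 / (n : ℝ) ^ 2) :=
      (ENNReal.ofReal_tsum_of_nonneg (fun n => by positivity) hs).symm
    rw [h2] at h1
    exact ne_top_of_le_ne_top ENNReal.ofReal_ne_top h1
  filter_upwards [ae_eventually_notMem hsum] with ω hω
  filter_upwards [hω, eventually_ge_atTop n0] with n hn hn1
  have e : G n = F n := by simp only [hG, if_pos hn1]
  rwa [e] at hn

lemma one_le_mert (y : ℕ) : 1 ≤ mert y := by
  unfold mert
  have h : ∀ p ∈ (range (y + 1)).filter Nat.Prime, (1 : ℝ) ≤ (1 - 1 / (p : ℝ))⁻¹ := by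
    intro p hp
    have h2 : 2 ≤ p := (mem_filter.1 hp).2.two_le
    have h3 : (2 : ℝ) ≤ p := by exact_mod_cast h2
    have h4 : 1 / (p : ℝ) ≤ 1 / 2 := one_div_le_one_div_of_le (by norm_num) h3
    have h5 : 0 < 1 / (p : ℝ) := by positivity
    exact (one_le_inv₀ (by linarith)).2 (by linarith)
  calc (1 : ℝ) = ∏ _p ∈ (range (y + 1)).filter Nat.Prime, (1 : ℝ) := by rw [prod_const_one]
    _ ≤ _ := prod_le_prod (fun _ _ => zero_le_one) h

lemma primorial_dvd {a b : ℕ} (h : a ≤ b) : primorial a ∣ primorial b := by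
  unfold primorial
  refine prod_dvd_prod_of_subset _ _ _ fun p hp => ?_
  rw [mem_filter, mem_range] at hp ⊢
  exact ⟨by omega, hp.2⟩

/-- lower bound for the probabilities in the window -/
lemma prob_ge {z : ℕ → ℕ} {n m : ℕ} (hlog : 1 ≤ Real.log n) (hz : z m ≤ ZZ n)
    (hc : m.Coprime (primorial (ZZ n))) (h3 : 2 ≤ m) (hm : m ≤ n ^ 2) :
    1 / (2 * Real.log n) ≤ prob z m := by
  unfold prob
  rw [if_pos (Nat.Coprime.coprime_dvd_right (primorial_dvd hz) hc)]
  have h1 : 0 < Real.log m := Real.log_pos (by exact_mod_cast (by omega : 1 < m))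
  have h2 : Real.log m ≤ 2 * Real.log n := by
    have h4 : Real.log m ≤ Real.log ((n : ℝ) ^ 2) :=
      Real.log_le_log (by exact_mod_cast (by omega : 0 < m)) (by exact_mod_cast hm)
    rwa [Real.log_pow, Nat.cast_ofNat] at h4
  refine le_min ?_ ?_
  · rw [div_le_one (by linarith)]
    linarith
  · exact div_le_div₀ (by linarith [one_le_mert (z m)]) (one_le_mert _) h1 h2

/-- the positions of the blocks -/
lemma positions {x : ℕ} (hx : x ∈ XS) (n : ℕ) (hn : 1000 ≤ n)
    (hP : 24 * primorial (ZZ n) ≤ n - 15) (h3n : x = 3 → n % 5 ≠ 4) :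
    ∃ y w : ℕ → ℕ, (∀ i < II n, x + y i + w i = n ∧ n - x ≤ 3 * y i ∧ 2 * y i < n - x ∧
      ∀ m ∈ five x (y i) (w i), m.Coprime (primorial (ZZ n))) ∧
      ∀ i j, i ≠ j → y i ≠ y j := by
  have hx15 : x ≤ 15 := by
    unfold XS at hx
    simp only [Finset.mem_insert, Finset.mem_singleton] at hx
    omega
  obtain ⟨r, hr⟩ := crt5 hx (n - x) (ZZ n) (fun e h => h3n e (by omega))
  have hI : II n = (n - 15) / (24 * primorial (ZZ n)) := rfl
  obtain ⟨P, hPe⟩ : ∃ P : ℕ, P = primorial (ZZ n) := ⟨_, rfl⟩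
  rw [← hPe] at hP hI hr ⊢
  have hP0 : 0 < P := by rw [hPe]; exact primorial_pos _
  obtain ⟨N, hN⟩ : ∃ N : ℕ, N = n - x := ⟨_, rfl⟩
  rw [← hN] at hr ⊢
  obtain ⟨s, hs⟩ : ∃ s : ℕ, s = N / (3 * P) + 1 := ⟨_, rfl⟩
  have hlow : N < 3 * P * s := by
    rw [hs]
    exact Nat.lt_mul_div_succ _ (by omega)
  have hup : 3 * P * s ≤ N + 3 * P := by
    rw [hs, mul_add, mul_one]
    have := Nat.mul_div_le N (3 * P)
    omega
  have hr' : r % P < P := Nat.mod_lt _ hP0
  obtain ⟨y, hy⟩ : ∃ y : ℕ → ℕ, ∀ i, y i = r % P + P * (s + i) := ⟨_, fun _ => rfl⟩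
  refine ⟨y, fun i => N - y i, ?_, ?_⟩
  · intro i hi
    beta_reduce
    have hyi := hy i
    have h1 : 24 * P * (i + 1) ≤ n - 15 := by
      have h2 : i + 1 ≤ (n - 15) / (24 * P) := by omega
      calc 24 * P * (i + 1) ≤ 24 * P * ((n - 15) / (24 * P)) := Nat.mul_le_mul_left _ h2
        _ ≤ n - 15 := Nat.mul_div_le _ _
    have h3 : P * (s + i) = P * s + P * i := by ring
    have h4 : 24 * P * (i + 1) = 24 * (P * i) + 24 * P := by ring
    have h5 : 3 * P * s = 3 * (P * s) := by ring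
    have h6 : n - 15 ≤ N := by omega
    have h7 : y i = r % P + P * s + P * i := by rw [hyi, h3, add_assoc]
    have hA : N ≤ 3 * y i := by omega
    have hB : 2 * y i < N := by omega
    refine ⟨by omega, hA, hB, ?_⟩
    apply hr
    · omega
    · omega
    · omega
    · rw [hyi]
      unfold Nat.ModEq
      rw [Nat.add_mul_mod_self_left, Nat.mod_mod]
  · intro i j hij h
    rw [hy i, hy j] at h
    have h1 : P * (s + i) = P * (s + j) := by omega
    have h2 := Nat.eq_of_mul_eq_mul_left hP0 h1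
    omega

/-- `(x, y, w)` is admissible for `n` and the set `A` -/
def Good (A : Set ℕ) (n x : ℕ) : Prop :=
  ∃ y w : ℕ, 1 ≤ y ∧ 1 ≤ w ∧ x + y + w = n ∧ ∀ m ∈ five x y w, m ∈ A

lemma five_bounds {x : ℕ} (hx : x ∈ XS) {n y w : ℕ} (hn : 1000 ≤ n) (h : x + y + w = n)
    (h1 : n - x ≤ 3 * y) (h2 : 2 * y < n - x) : ∀ m ∈ five x y w, 2 ≤ m ∧ m ≤ n ^ 2 := by
  have hx15 : 3 ≤ x ∧ x ≤ 15 := by
    unfold XS at hx
    simp only [Finset.mem_insert, Finset.mem_singleton] at hx
    omega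
  obtain ⟨hx3, hx15⟩ := hx15
  have hy : 300 ≤ y := by omega
  have hw : 300 ≤ w := by omega
  have hyn : y ≤ n := by omega
  have hwn : w ≤ n := by omega
  have e1 : n ^ 2 = n * n := sq n
  have e2 : 30 * n ≤ n * n := Nat.mul_le_mul_right _ (by omega)
  have hxy : 2 * x * y ≤ 30 * n := Nat.mul_le_mul (by omega) hyn
  have hxw : 2 * x * w ≤ 30 * n := Nat.mul_le_mul (by omega) hwn
  have hxy2 : 6 * 300 ≤ 2 * x * y := Nat.mul_le_mul (by omega) hy
  have hxw2 : 6 * 300 ≤ 2 * x * w := Nat.mul_le_mul (by omega) hw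
  have hyw : 2 * y * w ≤ n * n := Nat.mul_le_mul (by omega) hwn
  have hyw2 : 600 * 300 ≤ 2 * y * w := Nat.mul_le_mul (by omega) hw
  intro m hm
  simp only [five, Finset.mem_insert, Finset.mem_singleton] at hm
  rw [e1]
  rcases hm with rfl | rfl | rfl | rfl | rfl <;> omega

theorem main (z : ℕ → ℕ) (hz : ∀ᶠ m : ℕ in atTop, (z m : ℝ) ≤ Real.log m / 4) :
    ∀ᵐ ω ∂(Measure.infinitePi (coin z)), ∀ᶠ n : ℕ in atTop, ∀ x ∈ XS,
      (x = 3 → n % 5 ≠ 4) → Good {m | ω m = true} n x := by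
  obtain ⟨hE, hi, hp⟩ := model_facts z
  -- the sieving limit
  have hzz : ∀ᶠ n : ℕ in atTop, ∀ m ≤ n ^ 2, z m ≤ ZZ n := by
    obtain ⟨m0, hm0⟩ := eventually_atTop.1 hz
    have h1 : ∀ᶠ n : ℕ in atTop, (((range m0).sup z : ℕ) : ℝ) ≤ Real.log n / 2 := by
      have h2 : Tendsto (fun n : ℕ => Real.log n / 2) atTop atTop :=
        (Real.tendsto_log_atTop.comp tendsto_natCast_atTop_atTop).atTop_div_const (by norm_num)
      exact h2.eventually_ge_atTop _
    filter_upwards [h1, eventually_ge_atTop 1] with n hn hn1 m hm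
    apply Nat.le_floor
    rcases Nat.lt_or_ge m m0 with h | h
    · have h3 : z m ≤ (range m0).sup z := Finset.le_sup (f := z) (mem_range.2 h)
      exact (by exact_mod_cast h3 : (z m : ℝ) ≤ (((range m0).sup z : ℕ) : ℝ)).trans hn
    · refine (hm0 m h).trans ?_
      rcases Nat.eq_zero_or_pos m with h0 | h0
      · subst h0
        have := Real.log_natCast_nonneg n
        simp only [Nat.cast_zero, Real.log_zero, zero_div]
        linarith
      · have h4 : Real.log m ≤ Real.log ((n : ℝ) ^ 2) :=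
          Real.log_le_log (by exact_mod_cast h0) (by exact_mod_cast hm)
        rw [Real.log_pow, Nat.cast_ofNat] at h4
        linarith
  have key : ∀ x ∈ XS, ∀ᵐ ω ∂(Measure.infinitePi (coin z)), ∀ᶠ n : ℕ in atTop,
      ω ∉ {ω : ℕ → Bool | (x = 3 → n % 5 ≠ 4) ∧ ¬ Good {m | ω m = true} n x} := by
    intro x hx
    apply bc
    filter_upwards [hzz, tail_le] with n hzn ht
    obtain ⟨htail, hP, hlog, hn⟩ := ht
    by_cases h3n : x = 3 → n % 5 ≠ 4
    swap
    · have e : {ω : ℕ → Bool | (x = 3 → n % 5 ≠ 4) ∧ ¬ Good {m | ω m = true} n x} = ∅ := by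
        ext ω
        simp only [Set.mem_ofPred_eq, Set.mem_empty_iff_false, iff_false]
        exact fun h => h3n h.1
      rw [e]
      simp only [measureReal_empty]
      positivity
    obtain ⟨y, w, hyw, hne⟩ := positions hx n hn hP h3n
    have hsub : {ω : ℕ → Bool | (x = 3 → n % 5 ≠ 4) ∧ ¬ Good {m | ω m = true} n x} ⊆
        {ω : ℕ → Bool | ∀ i < II n, ∃ m ∈ (fun i => five x (y i) (w i)) i,
          ω ∉ (fun m : ℕ => {ω : ℕ → Bool | ω m = true}) m} := by
      intro ω hω i hi'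
      by_contra hcon
      apply hω.2
      obtain ⟨h1, h2, h3, -⟩ := hyw i hi'
      refine ⟨y i, w i, by omega, by omega, h1, fun m hm => ?_⟩
      by_contra hm2
      exact hcon ⟨m, hm, hm2⟩
    have hq0 : 0 ≤ 1 / (2 * Real.log n) := by positivity
    have hq1 : 1 / (2 * Real.log n) ≤ 1 := by
      rw [div_le_one (by linarith)]; linarith
    have hb := blk_prob_P hE hi (fun i => five x (y i) (w i)) (II n) 5 (1 / (2 * Real.log n))
      hq0 hq1 (by
        intro i hi1 j hj1 hij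
        obtain ⟨h1, h2, h3, -⟩ := hyw i hi1
        obtain ⟨k1, k2, k3, -⟩ := hyw j hj1
        have hx15 : x ≤ 15 := by
          unfold XS at hx
          simp only [Finset.mem_insert, Finset.mem_singleton] at hx
          omega
        exact five_disjoint hx (n - x) _ _ _ _ (by omega) (by omega) (by omega) h2 h3 k2 k3
          (hne i j hij))
      (fun i _ => five_card _ _ _) (by
        intro i hi1 m hm
        obtain ⟨h1, h2, h3, h4⟩ := hyw i hi1
        rw [hp]
        obtain ⟨h5, h6⟩ := five_bounds hx hn h1 h2 h3 m hm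
        exact prob_ge hlog (hzn m h6) (h4 m hm) h5 h6)
    exact (measureReal_mono hsub).trans (hb.trans htail)
  have key2 : ∀ᵐ ω ∂(Measure.infinitePi (coin z)), ∀ x ∈ XS, ∀ᶠ n : ℕ in atTop,
      ω ∉ {ω : ℕ → Bool | (x = 3 → n % 5 ≠ 4) ∧ ¬ Good {m | ω m = true} n x} :=
    (ae_ball_iff (Finset.countable_toSet XS)).2 key
  filter_upwards [key2] with ω hω
  rw [Filter.eventually_all_finset]
  intro x hx
  filter_upwards [hω x hx] with n hn h3
  by_contra h
  exact hn ⟨h3, h⟩

end Pool.Agent.SU33
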