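import Pool.Agent.SU33.Local

/-!
# SU33/Blocks: the blocks of five numbers are disjoint (MP_7a6c33_nt)
-/

set_option autoImplicit false

namespace Pool.Agent.SU33

open Finset

/-- For `N / 3 ≤ y < N / 2` and large `N` the five numbers determine `y`. -/
lemma five_disjoint {x : ℕ} (hx : x ∈ XS) (N y w y' w' : ℕ) (hN : 100 ≤ N) (h1 : y + w = N) (h2 : y' + w' = N)
    (hy : N ≤ 3 * y) (hy2 : 2 * y < N) (hy' : N ≤ 3 * y') (hy2' : 2 * y' < N) (hne : y ≠ y') :
    Disjoint (five x y w) (five x y' w') := by
  have big : ∀ a b : ℕ, a + b = N → N ≤ 3 * a → 2 * a < N → 30 * N < 2 * a * b := by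
    intro a b hab ha ha2
    have h3 : N < 2 * b := by omega
    have h4 : 33 < a := by omega
    have h5 : 34 * N ≤ a * (2 * b) := Nat.mul_le_mul (by omega) (by omega)
    have h6 : a * (2 * b) = 2 * a * b := by ring
    omega
  have hb := big y w h1 hy hy2
  have hb' := big y' w' h2 hy' hy2'
  have hprod : 2 * y * w ≠ 2 * y' * w' := by
    intro h
    have hw : (w : ℤ) = N - y := by omega
    have hw' : (w' : ℤ) = N - y' := by omega
    have h3 : (2 * y * w : ℤ) = 2 * y' * w' := by exact_mod_cast h
    rw [hw, hw'] at h3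
    have h4 : ((y : ℤ) - y') * (N - y - y') = 0 := by linarith
    rcases mul_eq_zero.1 h4 with h5 | h5
    · exact hne (by omega)
    · omega
  rw [Finset.disjoint_left]
  intro m hm hm'
  simp only [five, XS, Finset.mem_insert, Finset.mem_singleton] at hm hm' hx
  rcases hx with rfl | rfl | rfl | rfl | rfl <;> rcases hm with rfl | rfl | rfl | rfl | rfl <;> rcases hm' with h | h | h | h | h <;> omega

end Pool.Agent.SU33
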