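import Mathlib

/-!
# SU33/Local: local solubility for the five linear and quadratic forms (MP_7a6c33_nt)
-/

set_option autoImplicit false

namespace Pool.Agent.SU33

open Finset Polynomial

/-- the product of the five forms -/
def FF {R : Type*} [CommRing R] (c N t : R) : R :=
  (2 * t - 1) * (2 * (N - t) - 1) * (2 * c * t - 1) * (2 * c * (N - t) - 1) *
    (2 * t * (N - t) - 1)

/-- the values of `x` -/
def XS : Finset ℕ := {3, 4, 6, 10, 15}

lemma loc2 : ∀ x ∈ XS, ∀ N : ZMod 2, ∃ t : ZMod 2, FF (x : ZMod 2) N t ≠ 0 := by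
  unfold FF XS; decide

lemma loc3 : ∀ x ∈ XS, ∀ N : ZMod 3, ∃ t : ZMod 3, FF (x : ZMod 3) N t ≠ 0 := by
  unfold FF XS; decide

lemma loc5 : ∀ x ∈ XS, ∀ N : ZMod 5, (x = 3 → N ≠ 1) →
    ∃ t : ZMod 5, FF (x : ZMod 5) N t ≠ 0 := by
  unfold FF XS; decide

/-- the polynomial of `FF` -/
noncomputable def QQ {R : Type*} [CommRing R] (c N : R) : R[X] :=
  (C 2 * X - C 1) * (C 2 * (C N - X) - C 1) * (C (2 * c) * X - C 1) *
    (C (2 * c) * (C N - X) - C 1) * (C 2 * X * (C N - X) - C 1)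

lemma eval_QQ {R : Type*} [CommRing R] (c N t : R) : (QQ c N).eval t = FF c N t := by
  unfold QQ FF
  simp

lemma ne_of_eval {R : Type*} [CommRing R] [Nontrivial R] (f : R[X]) (t : R)
    (h : f.eval t = -1) : f ≠ 0 := by
  rintro rfl
  rw [eval_zero] at h
  exact one_ne_zero (neg_eq_zero.1 h.symm)

lemma QQ_ne {R : Type*} [CommRing R] [IsDomain R] (c N : R) : QQ c N ≠ 0 := by
  unfold QQ
  refine mul_ne_zero (mul_ne_zero (mul_ne_zero (mul_ne_zero ?_ ?_) ?_) ?_) ?_
  · exact ne_of_eval _ 0 (by simp)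
  · exact ne_of_eval _ N (by simp)
  · exact ne_of_eval _ 0 (by simp)
  · exact ne_of_eval _ N (by simp)
  · exact ne_of_eval _ 0 (by simp)

lemma QQ_deg {R : Type*} [CommRing R] (c N : R) : (QQ c N).natDegree ≤ 6 := by
  unfold QQ
  have h1 : (C 2 * X - C 1 : R[X]).natDegree ≤ 1 := by compute_degree
  have h2 : (C 2 * (C N - X) - C 1 : R[X]).natDegree ≤ 1 := by compute_degree
  have h3 : (C (2 * c) * X - C 1 : R[X]).natDegree ≤ 1 := by compute_degree
  have h4 : (C (2 * c) * (C N - X) - C 1 : R[X]).natDegree ≤ 1 := by compute_degree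
  have h5 : (C 2 * X * (C N - X) - C 1 : R[X]).natDegree ≤ 2 := by compute_degree
  refine natDegree_mul_le.trans ?_
  have e1 := natDegree_mul_le (p := (C 2 * X - C 1 : R[X])) (q := (C 2 * (C N - X) - C 1))
  have e2 := natDegree_mul_le (p := (C 2 * X - C 1 : R[X]) * (C 2 * (C N - X) - C 1))
    (q := (C (2 * c) * X - C 1))
  have e3 := natDegree_mul_le
    (p := (C 2 * X - C 1 : R[X]) * (C 2 * (C N - X) - C 1) * (C (2 * c) * X - C 1))
    (q := (C (2 * c) * (C N - X) - C 1))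
  omega

lemma loc_big (p : ℕ) [Fact p.Prime] (hp : 7 ≤ p) (c N : ZMod p) :
    ∃ t : ZMod p, FF c N t ≠ 0 := by
  classical
  by_contra hcon
  push Not at hcon
  have h1 : (Finset.univ : Finset (ZMod p)) ⊆ (QQ c N).roots.toFinset := by
    intro t _
    rw [Multiset.mem_toFinset, mem_roots (QQ_ne c N), IsRoot.def, eval_QQ]
    exact hcon t
  have h2 := Finset.card_le_card h1
  rw [Finset.card_univ, ZMod.card] at h2
  have h3 := Multiset.toFinset_card_le (QQ c N).roots
  have h4 := card_roots' (QQ c N)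
  have h5 := QQ_deg c N
  omega

lemma loc (p : ℕ) [Fact p.Prime] {x N : ℕ} (hx : x ∈ XS) (h3 : x = 3 → N % 5 ≠ 1) :
    ∃ t : ZMod p, FF (x : ZMod p) (N : ZMod p) t ≠ 0 := by
  have hp : p.Prime := Fact.out
  rcases Nat.lt_or_ge p 7 with h | h
  · have h2 := hp.two_le
    interval_cases p
    · exact loc2 x hx (N : ZMod 2)
    · exact loc3 x hx (N : ZMod 3)
    · exact absurd hp (by norm_num)
    · refine loc5 x hx (N : ZMod 5) fun e hN => h3 e ?_
      have h5 : (N : ZMod 5) = ((1 : ℕ) : ZMod 5) := by rw [hN]; norm_num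
      exact (ZMod.natCast_eq_natCast_iff N 1 5).1 h5
    · exact absurd hp (by norm_num)
  · exact loc_big p h x N

/-- the five numbers -/
def five (x y w : ℕ) : Finset ℕ :=
  {2 * y - 1, 2 * w - 1, 2 * x * y - 1, 2 * x * w - 1, 2 * y * w - 1}

lemma five_card (x y w : ℕ) : (five x y w).card ≤ 5 := Finset.card_le_five

lemma XS_pos {x : ℕ} (hx : x ∈ XS) : 1 ≤ x := by
  unfold XS at hx
  simp only [Finset.mem_insert, Finset.mem_singleton] at hx
  omega

lemma not_dvd_of (p : ℕ) [Fact p.Prime] (x y w : ℕ) (hx : 1 ≤ x) (hy : 1 ≤ y) (hw : 1 ≤ w)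
    (h : FF (x : ZMod p) ((y + w : ℕ) : ZMod p) (y : ZMod p) ≠ 0) :
    ∀ m ∈ five x y w, ¬ p ∣ m := by
  have hyw : 1 ≤ y * w := Nat.mul_pos hy hw
  unfold FF at h
  have e : ((y + w : ℕ) : ZMod p) - (y : ZMod p) = w := by push_cast; ring
  rw [e] at h
  have hh := h
  simp only [mul_ne_zero_iff] at hh
  obtain ⟨⟨⟨⟨h1, h2⟩, h3⟩, h4⟩, h5⟩ := hh
  intro m hm
  simp only [five, Finset.mem_insert, Finset.mem_singleton] at hm
  intro hd
  rw [← ZMod.natCast_eq_zero_iff] at hd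
  rcases hm with rfl | rfl | rfl | rfl | rfl
  · rw [Nat.cast_sub (by omega)] at hd
    push_cast at hd
    exact h1 hd
  · rw [Nat.cast_sub (by omega)] at hd
    push_cast at hd
    exact h2 hd
  · have := Nat.mul_pos hx hy
    rw [Nat.cast_sub (by nlinarith)] at hd
    push_cast at hd
    exact h3 hd
  · have := Nat.mul_pos hx hw
    rw [Nat.cast_sub (by nlinarith)] at hd
    push_cast at hd
    exact h4 hd
  · rw [Nat.cast_sub (by nlinarith)] at hd
    push_cast at hd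
    exact h5 hd

/-- For `x = 3` and `y + w ≡ 1` modulo `5` one of the five numbers is divisible by `5`. -/
lemma obstruction (y w : ℕ) (hy : 1 ≤ y) (hw : 1 ≤ w) (h : (y + w) % 5 = 1) :
    ∃ m ∈ five 3 y w, 5 ∣ m := by
  have h1 : y % 5 < 5 := Nat.mod_lt _ (by norm_num)
  have h2 : w % 5 < 5 := Nat.mod_lt _ (by norm_num)
  have hyw : 1 ≤ y * w := Nat.mul_pos hy hw
  have h3 : (2 * y * w) % 5 = 2 * (y % 5) * (w % 5) % 5 := by
    rw [Nat.mul_mod, Nat.mul_mod 2 y]
    simp [Nat.mul_mod]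
  have h4 : 1 ≤ 2 * y * w := by nlinarith
  simp only [five, Finset.mem_insert, Finset.mem_singleton, exists_eq_or_imp, exists_eq_left]
  interval_cases hy5 : y % 5 <;> interval_cases hw5 : w % 5 <;> omega

/-- A residue class modulo the primorial for which all five numbers are coprime to it. -/
theorem crt5 {x : ℕ} (hx : x ∈ XS) (N Z : ℕ) (h3 : x = 3 → N % 5 ≠ 1) : ∃ r : ℕ, ∀ y w : ℕ, 1 ≤ y → 1 ≤ w → y + w = N →
    y ≡ r [MOD primorial Z] → ∀ m ∈ five x y w, m.Coprime (primorial Z) := by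
  classical
  have hex : ∀ p : ℕ, ∃ a : ℕ, p.Prime → ∀ y w : ℕ, 1 ≤ y → 1 ≤ w → y + w = N →
      y ≡ a [MOD p] → ∀ m ∈ five x y w, ¬ p ∣ m := by
    intro p
    by_cases hp : p.Prime
    · have : Fact p.Prime := ⟨hp⟩
      obtain ⟨t, ht⟩ := loc p hx h3
      refine ⟨t.val, fun _ y w hy hw hyw hmod => ?_⟩
      apply not_dvd_of p x y w (XS_pos hx) hy hw
      have h1 : (y : ZMod p) = t := by
        have := (ZMod.natCast_eq_natCast_iff y t.val p).2 hmod
        rw [this, ZMod.natCast_zmod_val]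
      rw [hyw, h1]
      exact ht
    · exact ⟨0, fun h => absurd h hp⟩
  choose a ha using hex
  obtain ⟨n₀, hn₀⟩ : ∃ n₀ : ℕ, ∀ p ∈ (range (Z + 1)).filter Nat.Prime, n₀ ≡ a p [MOD p] := by
    have hco : Set.Pairwise (↑((range (Z + 1)).filter Nat.Prime) : Set ℕ)
        (Function.onFun Nat.Coprime (fun p : ℕ => p)) := by
      intro p hp q hq hpq
      have hp' := (mem_filter.1 (mem_coe.1 hp)).2
      have hq' := (mem_filter.1 (mem_coe.1 hq)).2
      exact (Nat.coprime_primes hp' hq').2 hpq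
    let w := Nat.chineseRemainderOfFinset a (fun p : ℕ => p)
      ((range (Z + 1)).filter Nat.Prime)
      (fun p hp => (mem_filter.1 hp).2.ne_zero) hco
    exact ⟨w.1, w.2⟩
  refine ⟨n₀, fun y w hy hw hyw hmod m hm => ?_⟩
  refine Nat.Coprime.symm (Nat.coprime_of_dvd fun p hp hpZ hpm => ?_)
  have hpZ' : p ≤ Z := (Nat.Prime.dvd_primorial_iff hp).1 hpZ
  have hmem : p ∈ (range (Z + 1)).filter Nat.Prime := mem_filter.2 ⟨by simpa using by omega, hp⟩
  have e1 : y ≡ a p [MOD p] := (hmod.of_dvd hpZ).trans (hn₀ p hmem)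
  exact ha p hp y w hy hw hyw e1 m hm hpm

end Pool.Agent.SU33
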